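import Pool.Agent.Helper65.KPV.St

/-!
# PROJECT KP (MP_26be5b_ag), chapter A, part V, module MEM: associated primes
-/

set_option autoImplicit false

namespace Pool.Agent.Helper15.KPV

open Pool.Agent.Helper65.KPV Pool.Agent.Helper5.KPA Pool.Agent.Helper52.KP

/-- a prime ideal `q(h₀ x)`, `h₀ ∈ B` -/
private theorem assPrime {S : Type} [CommRing S] [Algebra ℂ S] (B : Subalgebra ℂ S)
    (hB : IsNoetherianRing B) (x : S) (hx : x ∉ B) : ∃ h₀ ∈ B, h₀ * x ∉ B ∧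
      ∀ s ∈ B, ∀ t ∈ B, s * t * (h₀ * x) ∈ B → s * (h₀ * x) ∈ B ∨ t * (h₀ * x) ∈ B := by
  obtain ⟨J, hJ⟩ : ∃ J : Ideal B, ∀ s : B, s ∈ J ↔ (s : S) * x ∈ B := by
    refine ⟨⟨⟨⟨{s : B | (s : S) * x ∈ B}, ?_⟩, ?_⟩, ?_⟩, fun s => Iff.rfl⟩
    · intro a b ha hb
      simp only [Set.mem_setOf_eq] at ha hb ⊢
      rw [Subalgebra.coe_add, add_mul]
      exact B.add_mem ha hb
    · simp only [Set.mem_setOf_eq]
      rw [Subalgebra.coe_zero, zero_mul]
      exact B.zero_mem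
    · intro c a ha
      simp only [Set.mem_setOf_eq, smul_eq_mul] at ha ⊢
      rw [Subalgebra.coe_mul, mul_assoc]
      exact B.mul_mem c.2 ha
  have hJ1 : J ≠ ⊤ := by
    intro h
    have := (hJ 1).1 (by rw [h]; trivial)
    rw [Subalgebra.coe_one, one_mul] at this
    exact hx this
  have : Nontrivial (B ⧸ J) := Ideal.Quotient.nontrivial_iff.2 hJ1
  obtain ⟨P, hP⟩ := associatedPrimes.nonempty B (B ⧸ J)
  rw [AssociatedPrimes.mem_iff, isAssociatedPrime_iff] at hP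
  obtain ⟨hPp, m, hm⟩ := hP
  obtain ⟨h₀, rfl⟩ := Ideal.Quotient.mk_surjective m
  have hmem : ∀ s : B, s ∈ P ↔ (s : S) * ((h₀ : S) * x) ∈ B := by
    intro s
    rw [hm, Submodule.mem_colon_singleton, Submodule.mem_bot]
    have e : s • (Ideal.Quotient.mk J) h₀ = (Ideal.Quotient.mk J) (s * h₀) := by
      rw [map_mul]
      rfl
    rw [e, Ideal.Quotient.eq_zero_iff_mem, hJ, Subalgebra.coe_mul, mul_assoc]
  refine ⟨h₀, h₀.2, ?_, ?_⟩
  · intro h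
    apply hPp.ne_top
    rw [Ideal.eq_top_iff_one, hmem, Subalgebra.coe_one, one_mul]
    exact h
  · intro s hs t ht h
    have h1 : (⟨s, hs⟩ * ⟨t, ht⟩ : B) ∈ P := (hmem _).2 h
    rcases hPp.mem_or_mem h1 with h2 | h2
    · exact Or.inl ((hmem _).1 h2)
    · exact Or.inr ((hmem _).1 h2)

theorem hMEM (hEQM : StEQM) : StMEM := by
  intro S _ _ _ B τ h ξ v hNB hτ hMP hPV n b hb hx0 hv
  obtain ⟨x, hx⟩ : ∃ x : S, x = ∑ l ∈ Finset.range n, b l * τ ^ l := ⟨_, rfl⟩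
  rw [← hx] at hx0 ⊢
  have hv' : ∀ i, 0 ≤ v i x := by
    intro i
    rw [hx]
    exact hv i
  -- powers of elements of `I`
  have hpow : ∀ s ∈ B, s * τ ∈ B → s ^ n * x ∈ B := by
    intro s hs hst
    rw [hx, Finset.mul_sum]
    refine B.sum_mem fun l hl => ?_
    have hl' : l < n := Finset.mem_range.1 hl
    obtain ⟨k, hk⟩ : ∃ k, n = k + l := ⟨n - l, by omega⟩
    have e : s ^ n * (b l * τ ^ l) = b l * (s ^ k * (s * τ) ^ l) := by
      rw [hk, pow_add, mul_pow]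
      ring
    rw [e]
    exact B.mul_mem (hb l) (B.mul_mem (B.pow_mem hs k) (B.pow_mem hst l))
  obtain ⟨s₀, hs₀, hs₀0, hs₀τ⟩ := hτ
  have hQx : QB B x := ⟨s₀ ^ n, B.pow_mem hs₀ n, pow_ne_zero n hs₀0, hpow s₀ hs₀ hs₀τ⟩
  by_contra hxB
  obtain ⟨h₀, hh₀, hζB, hprime⟩ := assPrime B hNB.noeth x hxB
  have hPX : PX B (h₀ * x) := by
    refine ⟨hζB, ⟨s₀ ^ n, B.pow_mem hs₀ n, pow_ne_zero n hs₀0, ?_⟩, hprime⟩
    have e : s₀ ^ n * (h₀ * x) = h₀ * (s₀ ^ n * x) := by ring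
    rw [e]
    exact B.mul_mem hh₀ (hpow s₀ hs₀ hs₀τ)
  have hpw : ∀ s ∈ B, ∀ k : ℕ, s ^ k * (h₀ * x) ∈ B → s * (h₀ * x) ∈ B := by
    intro s hs k
    induction k with
    | zero =>
      intro h1
      rw [pow_zero, one_mul] at h1
      exact absurd h1 hζB
    | succ k ih =>
      intro h1
      rw [pow_succ] at h1
      rcases hprime _ (B.pow_mem hs k) s hs h1 with h2 | h2
      · exact ih h2
      · exact h2
  have hI : ∀ s ∈ B, s * τ ∈ B → s * (h₀ * x) ∈ B := by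
    intro s hs hst
    refine hpw s hs n ?_
    have e : s ^ n * (h₀ * x) = h₀ * (s ^ n * x) := by ring
    rw [e]
    exact B.mul_mem hh₀ (hpow s hs hst)
  obtain ⟨i, hi⟩ := hMP.all (h₀ * x) hPX hI
  have hback := hEQM S B (ξ i) (h₀ * x) hNB (hMP.px i) hPX hi
  obtain ⟨g, hg, hgξ, hgx⟩ := (hPV i).loc x hx0 hQx (hv' i)
  apply hgξ
  refine hback g hg ?_
  have e : g * (h₀ * x) = h₀ * (g * x) := by ring
  rw [e]
  exact B.mul_mem hh₀ hgx

end Pool.Agent.Helper15.KPV
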